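import Mathlib

namespace Pool.Agent.Results.MP_21e226_pr.IntersectingSubspaces

open MeasureTheory ProbabilityTheory

/-- Exponent vectors `α : Fin t → ℕ` with `∑ α = d`. -/
abbrev Expo (t d : ℕ) : Type := ↥((Finset.univ : Finset (Fin t)).piAntidiag d)

/-- The linear form `x ↦ ⟨v, x⟩` as a polynomial. -/
noncomputable def lin {n : ℕ} (v : EuclideanSpace ℝ (Fin n)) : MvPolynomial (Fin n) ℝ :=
  ∑ a, MvPolynomial.C (v a) * MvPolynomial.X a

/-- The matrix of the problem: block `i` has for each exponent vector `α` of degree `d` the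
coefficient vector of `∏ⱼ ⟨v i j, x⟩ ^ α j` as a column. -/
noncomputable def monomialMatrix {n t s : ℕ} (d : ℕ)
    (v : Fin s → Fin t → EuclideanSpace ℝ (Fin n)) :
    Matrix (Expo n d) (Fin s × Expo t d) ℝ :=
  fun β iα => MvPolynomial.coeff (Finsupp.equivFunOnFinite.symm (β : Fin n → ℕ))
    (∏ j, lin (v iα.1 j) ^ ((iα.2 : Fin t → ℕ) j))

/-- The smallest singular value of a real matrix, as the minimum of `‖M x‖` over unit vectors. -/
noncomputable def sigmaMin {R C : Type*} [Fintype R] [Fintype C] (M : Matrix R C ℝ) : ℝ :=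
  ⨅ x : {x : EuclideanSpace ℝ C // ‖x‖ = 1},
    ‖(WithLp.toLp 2 (M.mulVec (fun c => (x : EuclideanSpace ℝ C) c)) : EuclideanSpace ℝ R)‖

/-- The Gram-Schmidt basis of the column span of a matrix. -/
noncomputable def columnBasis {n t : ℕ} (A : Matrix (Fin n) (Fin t) ℝ) :
    Fin t → EuclideanSpace ℝ (Fin n) :=
  InnerProductSpace.gramSchmidtNormed ℝ (fun j => (WithLp.toLp 2 (fun a => A a j)))

/-- The law of `s` independent `n × t` matrices with i.i.d. `N(0, ρ²/n)` entries. -/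
noncomputable def noise (n t s : ℕ) (ρ : ℝ) : Measure (Fin s → Fin n → Fin t → ℝ) :=
  Measure.pi fun _ => Measure.pi fun _ => Measure.pi fun _ =>
    gaussianReal 0 (Real.toNNReal (ρ ^ 2 / n))

/-- The assertion of Q1 for given constants `d` and `δ`. -/
def SmoothedBound (d : ℕ) (δ : ℝ) : Prop :=
  ∃ C : ℝ, ∀ η : ℝ, 0 < η → ∃ n₀ : ℕ, ∀ n ≥ n₀, ∀ t s : ℕ, 1 ≤ t → t ≤ n → 1 ≤ s →
    ((s * (t + d - 1).choose d : ℕ) : ℝ) ≤ (1 - δ) * (((n + d - 1).choose d : ℕ) : ℝ) →
    ∀ ρ : ℝ, 0 < ρ → ρ ≤ 1 →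
    ∀ P : Fin s → Matrix (Fin n) (Fin t) ℝ, (∀ i, (P i).transpose * P i = 1) →
      ENNReal.ofReal (1 - η) ≤ noise n t s ρ
        {G | (ρ / n) ^ C ≤ sigmaMin (monomialMatrix d fun i => columnBasis (P i + Matrix.of (G i)))}

theorem lin_add {n : ℕ} (v w : EuclideanSpace ℝ (Fin n)) : lin (v + w) = lin v + lin w := by
  simp only [lin, PiLp.add_apply, map_add, add_mul, Finset.sum_add_distrib]

theorem lin_smul {n : ℕ} (c : ℝ) (v : EuclideanSpace ℝ (Fin n)) : lin (c • v) = c • lin v := by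
  simp only [lin, PiLp.smul_apply, smul_eq_mul, map_mul, Finset.smul_sum, MvPolynomial.smul_eq_C_mul,
    mul_assoc]

theorem lin_sum {n : ℕ} {ι : Type*} (S : Finset ι) (g : ι → ℝ) (v : ι → EuclideanSpace ℝ (Fin n)) :
    lin (∑ i ∈ S, g i • v i) = ∑ i ∈ S, g i • lin (v i) := by
  classical
  induction S using Finset.induction_on with
  | empty => simp [lin]
  | insert a S ha ih => rw [Finset.sum_insert ha, Finset.sum_insert ha, lin_add, lin_smul, ih]

/-- If `2t > n`, the matrix has a nontrivial kernel, whatever the vectors are. -/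
theorem exists_kernel {n t : ℕ} (d : ℕ) (h : n < 2 * t)
    (v : Fin 2 → Fin t → EuclideanSpace ℝ (Fin n)) :
    ∃ x : Fin 2 × Expo t d → ℝ, x ≠ 0 ∧ (monomialMatrix d v).mulVec x = 0 := by
  classical
  have hdep : ¬ LinearIndependent ℝ (fun p : Fin 2 × Fin t => v p.1 p.2) := by
    intro hli
    have := hli.fintype_card_le_finrank
    simp only [Fintype.card_prod, Fintype.card_fin, finrank_euclideanSpace] at this
    omega
  rw [Fintype.not_linearIndependent_iff] at hdep
  obtain ⟨g, hg, ⟨i0, j0⟩, hg0⟩ := hdep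
  have h1 : (∑ j, g (0, j) • lin (v 0 j)) = - ∑ j, g (1, j) • lin (v 1 j) := by
    have h2 := congrArg lin hg
    rw [lin_sum, Fintype.sum_prod_type, Fin.sum_univ_two] at h2
    have h3 : lin (0 : EuclideanSpace ℝ (Fin n)) = 0 := by simp [lin]
    rw [h3] at h2
    exact eq_neg_of_add_eq_zero_left h2
  have hpow : ∀ i : Fin 2, (∑ j, g (i, j) • lin (v i j)) ^ d =
      ∑ α : Expo t d, ((Nat.multinomial Finset.univ (α : Fin t → ℕ) : ℝ) *
        ∏ j, g (i, j) ^ ((α : Fin t → ℕ) j)) • ∏ j, lin (v i j) ^ ((α : Fin t → ℕ) j) := by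
    intro i
    rw [Finset.sum_pow_eq_sum_piAntidiag, ← Finset.sum_coe_sort]
    refine Finset.sum_congr rfl (fun α _ => ?_)
    rw [mul_smul, ← Finset.prod_smul]
    simp only [smul_pow]
    rw [MvPolynomial.smul_eq_C_mul]
    congr 1
  refine ⟨fun p => (if p.1 = 0 then 1 else -(-1) ^ d) *
    ((Nat.multinomial Finset.univ (p.2 : Fin t → ℕ) : ℝ) * ∏ j, g (p.1, j) ^ ((p.2 : Fin t → ℕ) j)),
    ?_, ?_⟩
  · intro hzero
    have hmem : (fun j => if j = j0 then d else 0) ∈ (Finset.univ : Finset (Fin t)).piAntidiag d := by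
      rw [Finset.mem_piAntidiag]
      simp
    have h2 := congrFun hzero (i0, ⟨_, hmem⟩)
    simp only [Pi.zero_apply] at h2
    have h3 : (∏ j, g (i0, j) ^ (if j = j0 then d else 0)) = g (i0, j0) ^ d := by
      rw [Finset.prod_eq_single j0]
      · simp
      · intro b _ hb; simp [hb]
      · simp
    rw [h3] at h2
    have h4 : (Nat.multinomial Finset.univ (fun j : Fin t => if j = j0 then d else 0) : ℝ) ≠ 0 := by
      exact_mod_cast (Nat.multinomial_pos _ _).ne'
    have h5 : (if i0 = 0 then (1:ℝ) else -(-1) ^ d) ≠ 0 := by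
      split_ifs
      · exact one_ne_zero
      · exact neg_ne_zero.mpr (pow_ne_zero _ (by norm_num))
    exact mul_ne_zero h5 (mul_ne_zero h4 (pow_ne_zero _ hg0)) h2
  · funext β
    rw [Matrix.mulVec, dotProduct, Pi.zero_apply, Fintype.sum_prod_type, Fin.sum_univ_two]
    have h2 : (∑ j, g (0, j) • lin (v 0 j)) ^ d - (-1) ^ d * (∑ j, g (1, j) • lin (v 1 j)) ^ d = 0 := by
      rw [h1, neg_pow, sub_self]
    rw [hpow 0, hpow 1] at h2
    have h3 := congrArg (MvPolynomial.coeff (Finsupp.equivFunOnFinite.symm (β : Fin n → ℕ))) h2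
    have h4 : ((-1 : MvPolynomial (Fin n) ℝ)) ^ d = MvPolynomial.C ((-1 : ℝ) ^ d) := by
      simp
    rw [h4, MvPolynomial.coeff_sub, MvPolynomial.coeff_C_mul, MvPolynomial.coeff_sum,
      MvPolynomial.coeff_sum, MvPolynomial.coeff_zero] at h3
    simp only [MvPolynomial.coeff_smul, smul_eq_mul] at h3
    rw [← h3, sub_eq_add_neg, ← neg_mul, Finset.mul_sum]
    refine congrArg₂ (· + ·) (Finset.sum_congr rfl fun α _ => ?_) (Finset.sum_congr rfl fun α _ => ?_)
    · simp only [monomialMatrix, if_true, one_mul]; ring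
    · simp only [monomialMatrix, one_ne_zero, if_false]; ring

theorem sigmaMin_eq_zero {R C : Type*} [Fintype R] [Fintype C] (M : Matrix R C ℝ) (x : C → ℝ)
    (hx : x ≠ 0) (h : M.mulVec x = 0) : sigmaMin M = 0 := by
  have hx' : (WithLp.toLp 2 x : EuclideanSpace ℝ C) ≠ 0 := by
    intro h0
    apply hx
    funext c
    exact congrArg (fun y : EuclideanSpace ℝ C => y c) h0
  have hn : ‖(WithLp.toLp 2 x : EuclideanSpace ℝ C)‖ ≠ 0 := norm_ne_zero_iff.mpr hx'
  set y : EuclideanSpace ℝ C := ‖(WithLp.toLp 2 x : EuclideanSpace ℝ C)‖⁻¹ • WithLp.toLp 2 x with hy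
  have hy1 : ‖y‖ = 1 := by
    rw [hy, norm_smul, norm_inv, norm_norm, inv_mul_cancel₀ hn]
  have hMy : M.mulVec (fun c => y c) = 0 := by
    have : (fun c => y c) = ‖(WithLp.toLp 2 x : EuclideanSpace ℝ C)‖⁻¹ • x := by
      funext c; rfl
    rw [this, Matrix.mulVec_smul, h, smul_zero]
  refine le_antisymm ?_ (Real.iInf_nonneg fun _ => norm_nonneg _)
  refine (ciInf_le ⟨0, ?_⟩ (⟨y, hy1⟩ : {x : EuclideanSpace ℝ C // ‖x‖ = 1})).trans ?_
  · rintro _ ⟨z, rfl⟩; exact norm_nonneg _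
  · simp only [hMy]
    have : (WithLp.toLp 2 (0 : R → ℝ) : EuclideanSpace ℝ R) = 0 := rfl
    rw [this, norm_zero]

/-- The dimension count: with `n = 2k` and `t = k + 1`, two blocks satisfy the dimension
condition for all large `k`. -/
theorem dimension_condition (d : ℕ) (δ : ℝ) (hδ : 2 < (1 - δ) * 2 ^ d) :
    ∀ᶠ k : ℕ in Filter.atTop,
      ((2 * (k + 1 + d - 1).choose d : ℕ) : ℝ) ≤ (1 - δ) * (((2 * k + d - 1).choose d : ℕ) : ℝ) := by
  have hδ1 : 0 < 1 - δ := by
    by_contra hle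
    rw [not_lt] at hle
    nlinarith [pow_pos (show (0:ℝ) < 2 by norm_num) d]
  have hfac : ∀ i : ℕ, Filter.Tendsto (fun k : ℕ => ((2 * k + i : ℕ) : ℝ) / ((k + 1 + i : ℕ) : ℝ))
      Filter.atTop (nhds 2) := by
    intro i
    have h1 : Filter.Tendsto (fun k : ℕ => (2:ℝ) - ((i : ℝ) + 2) * ((k + 1 + i : ℕ) : ℝ)⁻¹)
        Filter.atTop (nhds (2 - ((i : ℝ) + 2) * 0)) := by
      refine Filter.Tendsto.sub tendsto_const_nhds (Filter.Tendsto.const_mul _ ?_)
      refine tendsto_inv_atTop_zero.comp (tendsto_natCast_atTop_atTop.comp ?_)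
      exact Filter.tendsto_atTop_mono (fun k => (by show k ≤ k + 1 + i; omega)) Filter.tendsto_id
    rw [mul_zero, sub_zero] at h1
    refine h1.congr (fun k => ?_)
    have hne : ((k + 1 + i : ℕ) : ℝ) ≠ 0 := by positivity
    rw [eq_div_iff hne, sub_mul, mul_assoc, inv_mul_cancel₀ hne]
    push_cast; ring
  have hprod : Filter.Tendsto (fun k : ℕ => (1 - δ) * ∏ i ∈ Finset.range d,
      ((2 * k + i : ℕ) : ℝ) / ((k + 1 + i : ℕ) : ℝ)) Filter.atTop (nhds ((1 - δ) * 2 ^ d)) := by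
    refine Filter.Tendsto.const_mul _ ?_
    have := tendsto_finsetProd (Finset.range d) (fun i _ => hfac i)
    simpa using this
  filter_upwards [hprod.eventually (lt_mem_nhds hδ)] with k hk
  rw [Finset.prod_div_distrib] at hk
  have hA : (∏ i ∈ Finset.range d, ((2 * k + i : ℕ) : ℝ)) =
      (d.factorial : ℝ) * (((2 * k + d - 1).choose d : ℕ) : ℝ) := by
    rw [← Nat.cast_prod, ← Nat.ascFactorial_eq_prod_range, Nat.ascFactorial_eq_factorial_mul_choose']
    push_cast; ring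
  have hB : (∏ i ∈ Finset.range d, ((k + 1 + i : ℕ) : ℝ)) =
      (d.factorial : ℝ) * (((k + 1 + d - 1).choose d : ℕ) : ℝ) := by
    rw [← Nat.cast_prod, ← Nat.ascFactorial_eq_prod_range, Nat.ascFactorial_eq_factorial_mul_choose']
    push_cast; ring
  rw [hA, hB] at hk
  have hf : (0:ℝ) < d.factorial := by exact_mod_cast d.factorial_pos
  rw [mul_div_mul_left _ _ hf.ne'] at hk
  have hcp : (0:ℝ) < (((k + 1 + d - 1).choose d : ℕ) : ℝ) := by
    exact_mod_cast Nat.choose_pos (by omega)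
  rw [← mul_div_assoc, lt_div_iff₀ hcp] at hk
  push_cast
  exact hk.le

/-- **Main result.** The conjectured smoothed bound fails for every `d ≥ 2` and every
`δ < 1 - 2^{1-d}`; in particular Q1 has a negative answer. -/
theorem result :
    (∀ (n t d : ℕ), n < 2 * t → ∀ v : Fin 2 → Fin t → EuclideanSpace ℝ (Fin n),
      sigmaMin (monomialMatrix d v) = 0) ∧
    (∀ (d : ℕ) (δ : ℝ), 1 ≤ d → 2 < (1 - δ) * 2 ^ d → ¬ SmoothedBound d δ) ∧
    ¬ (∀ (d : ℕ) (δ : ℝ), 1 ≤ d → 0 < δ → δ < 1 → SmoothedBound d δ) := by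
  have main : ∀ (d : ℕ) (δ : ℝ), 1 ≤ d → 2 < (1 - δ) * 2 ^ d → ¬ SmoothedBound d δ := by
    rintro d δ hd hδ ⟨C, hC⟩
    obtain ⟨n₀, hn₀⟩ := hC (1 / 2) (by norm_num)
    obtain ⟨k, hk, hk1⟩ := ((dimension_condition d δ hδ).and
      (Filter.eventually_ge_atTop (max n₀ 1))).exists
    have hk0 : n₀ ≤ k := le_trans (le_max_left _ _) hk1
    have hk2 : 1 ≤ k := le_trans (le_max_right _ _) hk1
    let Q : Matrix (Fin (2 * k)) (Fin (k + 1)) ℝ := Matrix.of fun a b => if (a : ℕ) = b then 1 else 0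
    have hQ : Q.transpose * Q = 1 := by
      ext b b'
      rw [Matrix.mul_apply, Matrix.one_apply]
      have hb : (b : ℕ) < 2 * k := by have := b.2; omega
      rw [Finset.sum_eq_single (⟨b, hb⟩ : Fin (2 * k))]
      · by_cases h : b = b'
        · subst h; simp [Q, Matrix.transpose_apply]
        · have h' : (b : ℕ) ≠ b' := fun h'' => h (Fin.ext h'')
          simp [Q, Matrix.transpose_apply, h, h']
      · intro a _ ha
        have ha' : (a : ℕ) ≠ b := fun h'' => ha (Fin.ext h'')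
        simp [Q, Matrix.transpose_apply, ha']
      · simp
    have h1 := hn₀ (2 * k) (by omega) (k + 1) 2 (by omega) (by omega) (by norm_num) hk 1 one_pos
      le_rfl (fun _ => Q) (fun _ => hQ)
    have h2 : {G : Fin 2 → Fin (2 * k) → Fin (k + 1) → ℝ | (1 / ((2 * k : ℕ) : ℝ)) ^ C ≤
        sigmaMin (monomialMatrix d fun i => columnBasis (Q + Matrix.of (G i)))} = ∅ := by
      ext G
      simp only [Set.mem_ofPred_eq, Set.mem_empty_iff_false, iff_false, not_le]
      obtain ⟨x, hx, hMx⟩ := exists_kernel d (by omega : 2 * k < 2 * (k + 1))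
        (fun i => columnBasis (Q + Matrix.of (G i)))
      rw [sigmaMin_eq_zero _ x hx hMx]
      have : (0:ℝ) < 1 / ((2 * k : ℕ) : ℝ) := by
        have : (0:ℝ) < ((2 * k : ℕ) : ℝ) := by exact_mod_cast (by omega : 0 < 2 * k)
        positivity
      exact Real.rpow_pos_of_pos this C
    rw [h2, measure_empty] at h1
    norm_num at h1
  refine ⟨fun n t d h v => ?_, main, fun h => ?_⟩
  · obtain ⟨x, hx, hMx⟩ := exists_kernel d h v
    exact sigmaMin_eq_zero _ x hx hMx
  exact main 2 (1 / 4) (by norm_num) (by norm_num) (h 2 (1 / 4) (by norm_num) (by norm_num) (by norm_num))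

end Pool.Agent.Results.MP_21e226_pr.IntersectingSubspaces
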